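import Pool.Agent.helper58.CRO.SpecG

open scoped Manifold ContDiff Topology ENNReal
open MeasureTheory Set Bundle

noncomputable section

namespace Pool.Agent.CRO

universe u

theorem GDL_dual (n : ℕ) : IsBoundedLinearMap ℝ
    (fun L : StrongDual ℝ (En n) => (InnerProductSpace.toDual ℝ (En n)).symm L) := by
  refine ⟨⟨fun x y => map_add _ x y, fun c x => ?_⟩, 1, one_pos, fun x => ?_⟩
  · rw [map_smulₛₗ]
    simp
  · rw [LinearIsometryEquiv.norm_map, one_mul]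

theorem GDL_hvf {n : ℕ} {H : PS n → ℝ} {z : PS n} (hH : ContDiffAt ℝ ∞ H z) :
    ContDiffAt ℝ 1 (hvf H) z := by
  have h4 : ContDiffAt ℝ 1 (fderiv ℝ H) z := hH.fderiv_right (m := 1) (WithTop.coe_le_coe.2 le_top)
  have h5 : ContDiffAt ℝ 1 (fun w => (fderiv ℝ H w).comp (ContinuousLinearMap.inr ℝ (En n) (En n))) z :=
    h4.clm_comp contDiffAt_const
  have h6 : ContDiffAt ℝ 1 (fun w => (fderiv ℝ H w).comp (ContinuousLinearMap.inl ℝ (En n) (En n))) z :=
    h4.clm_comp contDiffAt_const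
  have hd : ContDiff ℝ 1 (fun L : StrongDual ℝ (En n) => (InnerProductSpace.toDual ℝ (En n)).symm L) :=
    (GDL_dual n).contDiff
  have h7 := hd.contDiffAt.comp z h5
  have h8 := hd.contDiffAt.comp z h6
  exact h7.prodMk h8.neg

theorem GDL_lip {n : ℕ} {r : ℝ} (𝒢 : NChart n r) (z : PS n) (hz : ‖z.1‖ < r) :
    ContDiffAt ℝ 1 (hvf (ham 𝒢)) z := by
  refine GDL_hvf ?_
  have hG : ContDiffAt ℝ ∞ 𝒢.G z.1 :=
    𝒢.smooth.contDiffAt (Metric.isOpen_ball.mem_nhds (by simpa using hz))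
  have hGf : ContDiffAt ℝ ∞ (fun w : PS n => 𝒢.G w.1) z := hG.comp z contDiffAt_fst
  have h2 : ContDiffAt ℝ ∞ (fun w : PS n => 𝒢.G w.1 w.2) z := hGf.clm_apply contDiffAt_snd
  exact (h2.inner ℝ contDiffAt_snd).div_const 2

/-- one-sided local uniqueness -/
theorem GDL_uni {E : Type} [NormedAddCommGroup E] [NormedSpace ℝ E] {F : E → E} {c c2 : ℝ → E}
    {s T y : ℝ} (hsT : s < T) (hsy : s < y) (hF : ContDiffAt ℝ 1 F (c s)) (h0 : c s = c2 s)
    (hc : ∀ t ∈ Icc s T, HasDerivAt c (F (c t)) t)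
    (hc2 : ∀ᶠ t in 𝓝 s, HasDerivAt c2 (F (c2 t)) t) :
    ∃ t, s < t ∧ t ≤ y ∧ t ≤ T ∧ ∀ w ∈ Icc s t, c w = c2 w := by
  obtain ⟨K, U, hU, hK⟩ := hF.exists_lipschitzOnWith
  have hcs : ContinuousAt c s := (hc s ⟨le_refl _, hsT.le⟩).continuousAt
  have hc2s : ContinuousAt c2 s := hc2.self_of_nhds.continuousAt
  have e1 : ∀ᶠ t in 𝓝 s, c t ∈ U := hcs.eventually_mem hU
  have e2 : ∀ᶠ t in 𝓝 s, c2 t ∈ U := hc2s.eventually_mem (h0 ▸ hU)
  obtain ⟨ε, hε, hball⟩ := Metric.eventually_nhds_iff.mp (e1.and (e2.and hc2))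
  set t : ℝ := min (min y T) (s + ε / 2) with ht
  have hst : s < t := lt_min (lt_min hsy hsT) (by linarith)
  have hty : t ≤ y := (min_le_left _ _).trans (min_le_left _ _)
  have htT : t ≤ T := (min_le_left _ _).trans (min_le_right _ _)
  have hte : t ≤ s + ε / 2 := min_le_right _ _
  have hnear : ∀ w ∈ Icc s t, dist w s < ε := by
    intro w hw
    rw [Real.dist_eq, abs_of_nonneg (by linarith [hw.1])]
    linarith [hw.2]
  refine ⟨t, hst, hty, htT, ?_⟩
  have hder : ∀ w ∈ Icc s t, HasDerivAt c (F (c w)) w := fun w hw => hc w ⟨hw.1, hw.2.trans htT⟩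
  have h3 : EqOn c c2 (Icc s t) := by
    refine ODE_solution_unique_of_mem_Icc_right (v := fun _ => F) (s := fun _ => U) (K := K)
      (fun _ _ => hK) (fun w hw => (hder w hw).continuousAt.continuousWithinAt) ?_ ?_ ?_ ?_ ?_ h0
    · exact fun w hw => (hder w ⟨hw.1, hw.2.le⟩).hasDerivWithinAt
    · exact fun w hw => (hball (hnear w ⟨hw.1, hw.2.le⟩)).1
    · exact fun w hw => (hball (hnear w hw)).2.2.continuousAt.continuousWithinAt
    · exact fun w hw => (hball (hnear w ⟨hw.1, hw.2.le⟩)).2.2.hasDerivWithinAt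
    · exact fun w hw => (hball (hnear w ⟨hw.1, hw.2.le⟩)).2.1
  exact fun w hw => h3 hw

theorem GDL (h1 : COE_stmt.{u}) (h2 : GOP_stmt.{u}) (h3 : TRN_stmt.{u}) (h4 : CMP_stmt.{u})
    (h5 : ORB_stmt.{u}) (h6 : GDE_stmt.{u}) : GDL_stmt.{u} := by
  intro n M _ _ _ _ g χ r r2 𝒢 hχ htgt hRep hInj c T hT0 hTL hcn hc
  have hx : ‖(c 0).1‖ < r := (hc 0 ⟨le_refl _, hT0⟩).1
  set x : En n := (c 0).1 with hxdef
  have hxt : x ∈ χ.target := by
    rw [htgt]
    simpa using hx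
  set z : M := χ.symm x with hz
  have hzs : z ∈ χ.source := χ.map_target hxt
  have hχz : χ z = x := χ.right_inv hxt
  obtain ⟨ψ, hψ, hψt, hzψ, hψz, hψ0, hgeo⟩ := hInj z
  have hnormal : IsNormalAt g ψ z r2 := ⟨hψ, hψt, hzψ, hψz, hψ0, hgeo⟩
  obtain ⟨-, A, hA1, hA2⟩ := h3 n M χ hχ ψ hψ z ⟨hzs, hzψ⟩
  obtain ⟨hgop, hgpos, -, hg1, hg2⟩ := h2 n M g χ hχ x hxt
  have hGx : 𝒢.G x = Matrix.toEuclideanCLM (𝕜 := ℝ) (gmat g χ x)⁻¹ := hRep x hx
  rw [← hGx] at hg1 hg2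
  -- the linear isomorphism `G x`
  let Gx : En n ≃L[ℝ] En n := ContinuousLinearEquiv.equivOfInverse (𝒢.G x) (gop g χ x) hg2 hg1
  have hGxa : ∀ q, Gx q = 𝒢.G x q := fun q => rfl
  let Λ : En n ≃L[ℝ] En n := Gx.trans A
  have hΛ : ∀ q, Λ q = A (𝒢.G x q) := fun q => rfl
  have hfd : fderiv ℝ (fun y => ψ (χ.symm y)) (χ z) = (A : En n →L[ℝ] En n) := hA1.fderiv
  have hnorm : ∀ q, ‖Λ q‖ ^ 2 = nrm2 𝒢 (x, q) := by
    intro q
    rw [← real_inner_self_eq_norm_sq, ← hψ0, ← hψz]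
    have e1 := h4 n M g χ hχ ψ hψ z ⟨hzs, hzψ⟩ (𝒢.G x q) (𝒢.G x q)
    rw [hfd] at e1
    change coef g ψ (ψ z) (A (𝒢.G x q)) (A (𝒢.G x q)) = _
    rw [show (A (𝒢.G x q)) = (A : En n →L[ℝ] En n) (𝒢.G x q) from rfl, ← e1, hχz, ← hgop, hg2]
    change inner ℝ q (𝒢.G x q) = inner ℝ (𝒢.G x q) q
    exact real_inner_comm _ _
  set p : En n := (c 0).2 with hp
  have hc00 : c 0 = (x, p) := rfl
  set v : En n := Λ p with hv
  have hvn : ‖v‖ ^ 2 = nrm2 𝒢 (c 0) := by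
    rw [hv, hnorm p, ← hc00]
  have hv1 : ‖v‖ < 1 := by
    have e1 : ‖v‖ ^ 2 < 1 := by
      rw [hv, hnorm p, ← hc00]
      exact hcn
    nlinarith [norm_nonneg v]
  have hr2 : 0 < r2 := by linarith
  set γ : ℝ → M := fun t => ψ.symm (t • v) with hγ
  set I : Set ℝ := {t : ℝ | |t| * ‖v‖ < r2} with hI
  have hIo : IsOpen I := isOpen_lt (by fun_prop) continuous_const
  have hIn : ∀ t ∈ Icc 0 T, t ∈ I := by
    intro t ht
    have e1 : |t| ≤ T := by
      rw [abs_of_nonneg ht.1]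
      exact ht.2
    have e2 : |t| * ‖v‖ ≤ T * 1 :=
      mul_le_mul e1 hv1.le (norm_nonneg _) hT0
    change |t| * ‖v‖ < r2
    linarith
  have hIt : ∀ t ∈ I, t • v ∈ ψ.target := by
    intro t ht
    rw [hψt, mem_ball_zero_iff, norm_smul, Real.norm_eq_abs]
    exact ht
  have hγg : IsGeodesicOn g γ I := hgeo v
  have hγc : ∀ t ∈ I, ContinuousAt γ t := by
    intro t ht
    have e1 : ContinuousAt ψ.symm (t • v) := ψ.symm.continuousAt (hIt t ht)
    exact ContinuousAt.comp (f := fun t : ℝ => t • v) (g := ψ.symm) e1 (by fun_prop)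
  set c2 : ℝ → PS n := fun s =>
    ((χ (γ s), gop g χ (χ (γ s)) (deriv (fun u => χ (γ u)) s)) : PS n) with hc2
  have hORB : ∀ t ∈ I, γ t ∈ χ.source → HasDerivAt c2 (hvf (ham 𝒢) (c2 t)) t :=
    h5 n M g χ r 𝒢 γ I hχ htgt hRep hIo hγg
  have hγ0 : γ 0 = z := by
    change ψ.symm ((0 : ℝ) • v) = z
    rw [zero_smul, ← hψz]
    exact ψ.left_inv hzψ
  have hder0 : HasDerivAt (fun u => χ (γ u)) (A.symm v) 0 := by
    have e1 : HasFDerivAt (fun y => χ (ψ.symm y)) (A.symm : En n →L[ℝ] En n) ((0 : ℝ) • v) := by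
      rw [zero_smul, ← hψz]
      exact hA2
    have e2 : HasDerivAt (fun u : ℝ => u • v) v 0 := by
      have := (hasDerivAt_id (0 : ℝ)).smul_const v
      simpa using this
    exact e1.comp_hasDerivAt (0 : ℝ) e2
  have hc20 : c 0 = c2 0 := by
    rw [hc00]
    change (x, p) = ((χ (γ 0), gop g χ (χ (γ 0)) (deriv (fun u => χ (γ u)) 0)) : PS n)
    rw [hder0.deriv, hγ0, hχz]
    have e1 : A.symm v = 𝒢.G x p := by
      rw [hv, hΛ]
      exact A.symm_apply_apply _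
    rw [e1, hg2]
  have hmain : Icc 0 T ⊆ {t | γ t ∈ χ.source ∧ c t = c2 t} := by
    refine IsClosed.Icc_subset_of_forall_exists_gt ?_ ?_ ?_
    · refine isClosed_of_closure_subset ?_
      intro t ht
      have htI : t ∈ Icc 0 T := by
        have := closure_mono (inter_subset_right : {t | γ t ∈ χ.source ∧ c t = c2 t} ∩ Icc 0 T ⊆ Icc 0 T) ht
        rwa [isClosed_Icc.closure_eq] at this
      have : (𝓝[{t | γ t ∈ χ.source ∧ c t = c2 t} ∩ Icc 0 T] t).NeBot :=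
        mem_closure_iff_nhdsWithin_neBot.mp ht
      have hct := (hc t htI).2.continuousAt
      have hctt : (c t).1 ∈ χ.target := by
        rw [htgt]
        simpa using (hc t htI).1
      have e1 : Filter.Tendsto γ (𝓝[{t | γ t ∈ χ.source ∧ c t = c2 t} ∩ Icc 0 T] t) (𝓝 (γ t)) :=
        (hγc t (hIn t htI)).tendsto.mono_left nhdsWithin_le_nhds
      have e2 : ContinuousAt (fun s => χ.symm (c s).1) t := by
        have e3 : ContinuousAt χ.symm (c t).1 := χ.symm.continuousAt hctt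
        exact ContinuousAt.comp (f := fun s => (c s).1) (g := χ.symm) e3 (continuous_fst.continuousAt.comp hct)
      have e4 : Filter.Tendsto γ (𝓝[{t | γ t ∈ χ.source ∧ c t = c2 t} ∩ Icc 0 T] t)
          (𝓝 (χ.symm (c t).1)) := by
        refine (e2.tendsto.mono_left nhdsWithin_le_nhds).congr' ?_
        filter_upwards [self_mem_nhdsWithin] with s hs
        have e5 : (c s).1 = χ (γ s) := by
          rw [hs.1.2]
        rw [e5, χ.left_inv hs.1.1]
      have e6 : γ t = χ.symm (c t).1 := tendsto_nhds_unique e1 e4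
      have e7 : γ t ∈ χ.source := by
        rw [e6]
        exact χ.map_target hctt
      have e8 : ContinuousAt c2 t := (hORB t (hIn t htI) e7).continuousAt
      have e9 : Filter.Tendsto c (𝓝[{t | γ t ∈ χ.source ∧ c t = c2 t} ∩ Icc 0 T] t) (𝓝 (c2 t)) := by
        refine (e8.tendsto.mono_left nhdsWithin_le_nhds).congr' ?_
        filter_upwards [self_mem_nhdsWithin] with s hs
        exact hs.1.2.symm
      have e10 : c t = c2 t :=
        tendsto_nhds_unique (hct.tendsto.mono_left nhdsWithin_le_nhds) e9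
      exact ⟨⟨e7, e10⟩, htI⟩
    · refine ⟨?_, hc20⟩
      rw [hγ0]
      exact hzs
    · rintro s ⟨⟨hs1, hs2⟩, hs3⟩ y hy
      have hsI : s ∈ Icc 0 T := ⟨hs3.1, hs3.2.le⟩
      have hev : ∀ᶠ t in 𝓝 s, t ∈ I ∧ γ t ∈ χ.source :=
        (hIo.eventually_mem (hIn s hsI)).and
          ((hγc s (hIn s hsI)).eventually_mem (χ.open_source.mem_nhds hs1))
      have hev2 : ∀ᶠ t in 𝓝 s, HasDerivAt c2 (hvf (ham 𝒢) (c2 t)) t :=
        hev.mono fun t ht => hORB t ht.1 ht.2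
      obtain ⟨t, hst, hty, htT, hceq⟩ := GDL_uni (F := hvf (ham 𝒢)) hs3.2 hy
        (GDL_lip 𝒢 (c s) (hc s hsI).1) hs2
        (fun w hw => (hc w ⟨hs3.1.trans hw.1, hw.2⟩).2) hev2
      -- shrink so that γ stays in the source
      obtain ⟨ε, hε, hball⟩ := Metric.eventually_nhds_iff.mp hev
      set t' : ℝ := min t (s + ε / 2) with ht'
      have hst' : s < t' := lt_min hst (by linarith)
      have hd : dist t' s < ε := by
        rw [Real.dist_eq, abs_of_nonneg (by linarith)]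
        have := min_le_right t (s + ε / 2)
        linarith
      exact ⟨t', ⟨(hball hd).2, hceq t' ⟨hst'.le, min_le_left _ _⟩⟩, hst', (min_le_left _ _).trans hty⟩
  have hTT := hmain ⟨hT0, le_refl T⟩
  have hγT : χ.symm (c T).1 = ψ.symm (T • v) := by
    have e1 : (c T).1 = χ (γ T) := by
      rw [hTT.2]
    rw [e1, χ.left_inv hTT.1]
  have hTvn : ‖T • v‖ = T * ‖v‖ := by
    rw [norm_smul, Real.norm_eq_abs, abs_of_nonneg hT0]
  have hq : ‖T • v‖ < r2 := by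
    rw [hTvn]
    have e2 : T * ‖v‖ ≤ T * 1 := mul_le_mul_of_nonneg_left hv1.le hT0
    linarith
  have hGDE := h6 n M g ψ z r2 hr2 hnormal (T • v) hq
  rw [hγT]
  have hsp : sp 𝒢 (c 0) * T = ‖T • v‖ := by
    rw [hTvn, sp, ← hvn, Real.sqrt_sq (norm_nonneg _), mul_comm]
  rw [hsp]
  exact hGDE

end Pool.Agent.CRO
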