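import Pool.Agent.helper58.CRO.SpecB

/-!
# MP_5bf3c3_gt, row cro:SPD: finite speed
-/

open scoped Manifold ContDiff Topology ENNReal
open MeasureTheory Set

noncomputable section

namespace Pool.Agent.CRO

theorem SPD_real (f : ℝ → ℝ) (ρ T r1 : ℝ) (hf : Continuous f) (hn : ∀ s, 0 ≤ f s)
    (h0 : f 0 < ρ) (hr : ρ + T ≤ r1)
    (hd : ∀ s, 0 ≤ s → s ≤ T → (∀ t ∈ Icc 0 s, f t < r1) → f s ≠ 0 →
      ∃ d, HasDerivAt f d s ∧ d < 1) :
    ∀ s ∈ Icc 0 T, f s < ρ + s := by
  have hρ : 0 < ρ := lt_of_le_of_lt (hn 0) h0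
  intro s hs
  by_contra hcon
  push Not at hcon
  have hcpt : IsCompact ({x : ℝ | ρ + x ≤ f x} ∩ Icc 0 T) := by
    apply IsCompact.inter_left isCompact_Icc
    exact isClosed_le (by fun_prop) hf
  obtain ⟨s0, hs0, hmin⟩ := hcpt.exists_isLeast ⟨s, hcon, hs⟩
  have hs0f : ρ + s0 ≤ f s0 := hs0.1
  have hs00 : 0 ≤ s0 := hs0.2.1
  have hs0T : s0 ≤ T := hs0.2.2
  have hbelow : ∀ t, 0 ≤ t → t < s0 → f t < ρ + t := by
    intro t ht hts
    by_contra hc
    push Not at hc
    have := hmin ⟨hc, ht, by linarith⟩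
    linarith
  have hpos : 0 < s0 := by
    rcases hs00.lt_or_eq with h | h
    · exact h
    · exfalso
      rw [← h] at hs0f
      linarith
  have hcpt2 : IsCompact (({x : ℝ | f x = 0} ∪ {0}) ∩ Icc 0 s0) := by
    apply IsCompact.inter_left isCompact_Icc
    exact (isClosed_eq hf continuous_const).union isClosed_singleton
  obtain ⟨s1, hs1, hmax⟩ := hcpt2.exists_isGreatest ⟨0, Or.inr rfl, le_refl _, hs00⟩
  have hs10 : 0 ≤ s1 := hs1.2.1
  have hs1s0 : s1 < s0 := by
    rcases hs1.2.2.lt_or_eq with h | h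
    · exact h
    · exfalso
      rcases hs1.1 with h1 | h1
      · rw [mem_ofPred_eq, h] at h1
        rw [h1] at hs0f
        linarith
      · rw [mem_singleton_iff] at h1
        linarith
  have hder : ∀ x ∈ Ioo s1 s0, ∃ d, HasDerivAt f d x ∧ d < 1 := by
    intro x hx
    apply hd x (by linarith [hx.1]) (by linarith [hx.2])
    · intro t ht
      have := hbelow t ht.1 (lt_of_le_of_lt ht.2 hx.2)
      linarith [ht.2, hx.2]
    · intro hfx
      have := hmax ⟨Or.inl hfx, by linarith [hx.1], hx.2.le⟩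
      linarith [hx.1]
  choose! d hd1 hd2 using hder
  obtain ⟨c, hc, hceq⟩ := exists_hasDerivAt_eq_slope f d hs1s0 hf.continuousOn hd1
  have h3 := hd2 c hc
  rw [hceq, div_lt_one (by linarith)] at h3
  rcases hs1.1 with h1 | h1
  · rw [mem_ofPred_eq] at h1
    rw [h1] at h3
    linarith
  · rw [mem_singleton_iff] at h1
    rw [h1] at h3
    linarith

/-- Row cro:SPD. -/
theorem SPD (h1 : NRG_stmt) (h2 : DNM_stmt) : SPD_stmt := by
  intro n r0 r1 𝒢 H Φ hΦ z ρ u hz hρu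
  obtain ⟨hz1, hz2⟩ := hz
  have hcont : Continuous fun s => ‖(Φ s z).1‖ := by
    have h3 : Continuous fun s => Φ s z :=
      hΦ.cont.comp (continuous_id.prodMk continuous_const)
    exact h3.fst.norm
  have hΦ0 : Φ 0 z = z := hΦ.zero z
  have hpos : ∀ s ∈ Icc 0 |u|, ‖(Φ s z).1‖ < ρ + s := by
    apply SPD_real (fun s => ‖(Φ s z).1‖) ρ |u| r1 hcont (fun s => norm_nonneg _) _ hρu
    · intro s hs hsu hlt hne
      have hne' : (Φ s z).1 ≠ 0 := by
        intro h
        exact hne (by simp [h])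
      obtain ⟨ha, hb⟩ := h2 n r0 r1 𝒢 H Φ hΦ z s hz2 (fun t ht => by
        rw [uIcc_of_le hs] at ht
        exact hlt t ht) hne'
      exact ⟨_, ha, lt_of_le_of_lt (le_abs_self _) hb⟩
    · simpa [hΦ0] using hz1
  have hneg : ∀ s ∈ Icc 0 |u|, ‖(Φ (-s) z).1‖ < ρ + s := by
    apply SPD_real (fun s => ‖(Φ (-s) z).1‖) ρ |u| r1 (hcont.comp continuous_neg)
      (fun s => norm_nonneg _) _ hρu
    · intro s hs hsu hlt hne
      have hne' : (Φ (-s) z).1 ≠ 0 := by
        intro h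
        exact hne (by simp [h])
      obtain ⟨ha, hb⟩ := h2 n r0 r1 𝒢 H Φ hΦ z (-s) hz2 (fun t ht => by
        rw [uIcc_of_ge (by linarith)] at ht
        have := hlt (-t) ⟨by linarith [ht.2], by linarith [ht.1]⟩
        simpa using this) hne'
      refine ⟨_, HasDerivAt.comp s ha (hasDerivAt_neg s), ?_⟩
      have := lt_of_le_of_lt (neg_le_abs _) hb
      linarith
    · simpa [hΦ0] using hz1
  have hall : ∀ s, |s| ≤ |u| → ‖(Φ s z).1‖ < ρ + |s| := by
    intro s hs
    rcases le_total 0 s with h | h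
    · rw [abs_of_nonneg h] at hs ⊢
      exact hpos s ⟨h, hs⟩
    · rw [abs_of_nonpos h] at hs ⊢
      have := hneg (-s) ⟨by linarith, hs⟩
      simpa using this
  refine ⟨hall u le_rfl, h1 n r0 r1 𝒢 H Φ hΦ z u hz2 ?_⟩
  intro s hs
  have hsu : |s| ≤ |u| := by
    rcases le_total 0 u with h | h
    · rw [uIcc_of_le h] at hs
      rw [abs_of_nonneg h, abs_of_nonneg hs.1]
      exact hs.2
    · rw [uIcc_of_ge h] at hs
      rw [abs_of_nonpos h, abs_of_nonpos hs.2]
      linarith [hs.1]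
  linarith [hall s hsu]

end Pool.Agent.CRO
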